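import Pool.Agent.Helper55.OS.Stat
import Pool.Agent.Helper55.OS.StatBridge
import Pool.Agent.Helper55.OS.FeMain

/-!
# MP_28932f_an: close returns of a C^infinity Omega-stable diffeomorphism away from the periodic points

`M` is a compact smooth manifold, `f` a `C^∞` diffeomorphism of `M` that is Omega-stable for the `C^∞` topology. If `x` is
not in the closure of the periodic points, then for every neighbourhood `U` of `x` and every number `m` there is a
neighbourhood `D` of `x` such that every orbit segment from `D` to `D` is in `U` at least `m` times in between.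
-/

open Set Topology Manifold ContDiff

namespace Pool.Agent.Results.MP_28932f_an.CloseReturns

open Pool.Agent.Helper55.OS.Stat

theorem result (d : ℕ) (M : Type) [TopologicalSpace M] [T2Space M] [CompactSpace M]
    [ChartedSpace (EuclideanSpace ℝ (Fin d)) M] [IsManifold (𝓡 d) ∞ M]
    (f : Dif (EuclideanSpace ℝ (Fin d)) M) (hf : OmegaStable f)
    (x : M) (hp : x ∉ closure (Per (map f))) (U : Set M) (hU : U ∈ 𝓝 x) (m : ℕ) :
    ∃ D ∈ 𝓝 x, ∀ (y : M) (n : ℕ), 1 ≤ n → y ∈ D → (map f)^[n] y ∈ D →
      ∃ t : Finset ℕ, m ≤ t.card ∧ ∀ i ∈ t, 0 < i ∧ i < n ∧ (map f)^[i] y ∈ U :=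
  Pool.Agent.Helper55.OS.many_returns (d := d) f hf x hp U hU m

end Pool.Agent.Results.MP_28932f_an.CloseReturns
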