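import Pool.Agent.Helper55.OS.StatBridge
import Pool.Agent.Helper55.OS.P10Final

/-!
# MP_28932f_an: Axiom A from hyperbolicity of single recurrent orbits

For a `C^∞` Omega-stable diffeomorphism `f` of a compact smooth manifold `M`, Axiom A holds if and only if the closure of
the orbit of every recurrent point that is not periodic is a hyperbolic set (with constants depending on the orbit).
-/

open Set Topology Manifold ContDiff

namespace Pool.Agent.Results.MP_28932f_an.HyperbolicOrbitClosures

open Pool.Agent.Helper55.OS.Stat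

theorem result (d : ℕ) (M : Type) [TopologicalSpace M] [T2Space M] [CompactSpace M]
    [ChartedSpace (EuclideanSpace ℝ (Fin d)) M] [IsManifold (𝓡 d) ∞ M]
    (ρ : Metric (EuclideanSpace ℝ (Fin d)) M) (f : Dif (EuclideanSpace ℝ (Fin d)) M)
    (hf : OmegaStable f) :
    AxiomA ρ f ↔ ∀ x : M, Rec (map f) x → x ∉ Per (map f) →
      HypOn ρ f (closure {y : M | ∃ j : ℕ, y = (map f)^[j] x}) := by
  have hs : Pool.Agent.Helper55.OS.OmegaStable (d := d) f := hf
  haveI : SecondCountableTopology M :=
    ChartedSpace.secondCountable_of_sigmaCompact (EuclideanSpace ℝ (Fin d)) M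
  letI : MetricSpace M := TopologicalSpace.metrizableSpaceMetric M
  constructor
  · intro h x hx hxp
    exact (Pool.Agent.Helper55.OS.hypOn_bridge ρ f _).2
      (Pool.Agent.Helper55.OS.pointwise_of_axiomA ρ f
        ((Pool.Agent.Helper55.OS.axiomA_bridge ρ f).1 h) x hx hxp)
  · intro h
    exact (Pool.Agent.Helper55.OS.axiomA_bridge ρ f).2
      (Pool.Agent.Helper55.OS.axiomA_of_pointwise ρ f hs
        (fun x hx hxp => (Pool.Agent.Helper55.OS.hypOn_bridge ρ f _).1 (h x hx hxp)))

end Pool.Agent.Results.MP_28932f_an.HyperbolicOrbitClosures
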