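import Pool.Agent.Helper55.OS.Stat
import Pool.Agent.Helper55.OS.StatBridge
import Pool.Agent.Helper55.OS.FeLoc

/-!
# MP_28932f_an: the nonwandering set of a C^infinity Omega-stable diffeomorphism, away from the periodic points

`M` is a compact smooth manifold, `f` a `C^∞` diffeomorphism of `M` that is Omega-stable for the `C^∞` topology. Every
neighbourhood of every nonwandering point outside the closure of the periodic points contains uncountably many
nonwandering points. In particular isolated points of the nonwandering set are periodic, and the nonwandering set is the
closure of the periodic points if it is countable.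
-/

open Set Topology Manifold ContDiff

namespace Pool.Agent.Results.MP_28932f_an.IsolatedPoints

open Pool.Agent.Helper55.OS.Stat

theorem result (d : ℕ) (M : Type) [TopologicalSpace M] [T2Space M] [CompactSpace M]
    [ChartedSpace (EuclideanSpace ℝ (Fin d)) M] [IsManifold (𝓡 d) ∞ M]
    (f : Dif (EuclideanSpace ℝ (Fin d)) M) (hf : OmegaStable f)
    (x : M) (hx : x ∈ omega (map f)) (hp : x ∉ closure (Per (map f))) (U : Set M) (hU : U ∈ 𝓝 x) :
    ¬ (U ∩ omega (map f)).Countable :=
  Pool.Agent.Helper55.OS.uncountable_near (d := d) f hf x hx hp U hU

end Pool.Agent.Results.MP_28932f_an.IsolatedPoints
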